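import Pool.Agent.Lib.MP_464db4_gt.YV.Iff

/-!
MP_464db4_gt: constant scalar curvature Kaehler metrics on holomorphic torus bundles.
The definitions are in `Pool/Agent/Lib/MP_464db4_gt/YV/Defs.lean`.
-/

namespace Pool.Agent.Results.MP_464db4_gt.TorusBundleReduction

open YV

/-- Let `X → B` be a locally trivial holomorphic torus bundle (given by `T`) and `g` a Kaehler form on `X`.  The class of `g`
contains forms which are constant along the fibres, and for every such form `gm` and every `c`: the class of the form
`schur gm` induced on `B` contains a Kaehler form of constant scalar curvature `c` if and only if the class of `g` contains a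
Kaehler form of constant scalar curvature `c` which is constant along the fibres. -/
theorem result (ι κ G : Type) [Fintype ι] [DecidableEq ι] [Fintype κ] [DecidableEq κ] (D : Set (ι → ℂ)) (hD : IsOpen D)
    (T : TorusData ι κ D G) (g : (ι ⊕ κ → ℂ) → Matrix (ι ⊕ κ) (ι ⊕ κ) ℂ) (hg : IsKahler (tot κ D) T.total g) :
    (∃ gm, IsKahler (tot κ D) T.total gm ∧ FibreConst D gm ∧ Cohomologous (tot κ D) T.total g gm) ∧
    ∀ gm, IsKahler (tot κ D) T.total gm → FibreConst D gm → Cohomologous (tot κ D) T.total g gm →
      IsKahler D T.base (schur gm) ∧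
      ∀ c : ℝ,
        (∃ β', IsKahler D T.base β' ∧ Cohomologous D T.base (schur gm) β' ∧ ∀ b ∈ D, scal β' b = c) ↔
        (∃ g', IsKahler (tot κ D) T.total g' ∧ FibreConst D g' ∧ Cohomologous (tot κ D) T.total g g' ∧
          ∀ x ∈ tot κ D, scal g' x = c) :=
  ⟨exists_fibreConst hD hg, fun _ hgm hc hcoh => ⟨schur_isKahler hD hgm hc, fun c => fibreConst_iff hD hgm hc hcoh c⟩⟩

end Pool.Agent.Results.MP_464db4_gt.TorusBundleReduction
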