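import Pool.Agent.Lib.MP_464db4_gt.TG.Res

/-!
MP_464db4_gt: every Kaehler class on the total space of a holomorphic family of complex tori, or of finite quotients of complex tori, over a compact
hyperbolic curve contains a Kaehler metric of constant scalar curvature.  The definitions are in `Pool/Agent/Lib/MP_464db4_gt/YT/Defs.lean` and
`Pool/Agent/Lib/MP_464db4_gt/TG/Defs.lean`.
-/

namespace Pool.Agent.Results.MP_464db4_gt.TorusFamiliesOverCurves

open YT TGam Matrix

/-- Let `G` be a group with a homomorphism `pr` to `SL(2,ℝ)` with finite kernel, whose image is properly discontinuous and cocompact on the upper half plane, and let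
`X` be the quotient of `ℍ × ℂ^κ` by the translations `(t,z) ↦ (t, z + P_t v)`, `v` in a full lattice `Λ` of `ℂ^κ = ℝ^(2k)`, where `P_t` is a real-linear isomorphism
depending holomorphically on `t`, and by maps `(t,z) ↦ (γ t, A_γ(t) z + σ_γ(t))`, `γ` in `G`.  Every Kaehler form `g` on `X` is cohomologous to a Kaehler form `g'` of
constant scalar curvature `-lam < 0`; moreover `g'` is invariant under all translations `(t,z) ↦ (t, z + P_t w)`, `w ∈ ℂ^κ`, and its Ricci form is `-lam` times the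
pull-back of the Kaehler form `β` which it induces on the base. -/
theorem result (κ G : Type) [Fintype κ] [DecidableEq κ] [Group G] (pr : G →* Matrix.SpecialLinearGroup (Fin 2) ℝ) [Finite pr.ker]
    (hΓ : CocompactFuchsian pr.range) (T : TorusFamily κ pr) (g : (Unit ⊕ κ → ℂ) → Matrix (Unit ⊕ κ) (Unit ⊕ κ) ℂ)
    (hg : IsKahler (tot κ halfPlane) T.total g) :
    ∃ (g' : (Unit ⊕ κ → ℂ) → Matrix (Unit ⊕ κ) (Unit ⊕ κ) ℂ) (β : (Unit → ℂ) → Matrix Unit Unit ℂ) (lam : ℝ), 0 < lam ∧
      IsKahler (tot κ halfPlane) T.total g' ∧ Cohomologous (tot κ halfPlane) T.total g g' ∧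
      (∀ x ∈ tot κ halfPlane, scal g' x = ((-lam : ℝ) : ℂ)) ∧
      (∀ w, ∀ x ∈ tot κ halfPlane, (jac (T.tr w) x)ᵀ * g' (T.tr w x) * mconj (jac (T.tr w) x) = g' x) ∧
      IsKahler halfPlane (mobs pr.range) β ∧
      (∀ x ∈ tot κ halfPlane, β (bas x) =
        (g' x).toBlocks₁₁ - (g' x).toBlocks₁₂ * ((g' x).toBlocks₂₂)⁻¹ * ((g' x).toBlocks₁₂)ᴴ) ∧
      ∀ x ∈ tot κ halfPlane, ∀ i j, -dz i (fun y => dzbar j (logdet g') y) x =
        ((-lam : ℝ) : ℂ) * (fromBlocks (β (bas x)) 0 0 0 : Matrix (Unit ⊕ κ) (Unit ⊕ κ) ℂ) i j := by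
  obtain ⟨g', β, lam, hl, h1, h2, h3, h4, h5, h6, h7⟩ := family_strong hΓ T hg
  exact ⟨g', β, lam, hl, h1, h2, h7, h3, h4, h5, h6⟩

end Pool.Agent.Results.MP_464db4_gt.TorusFamiliesOverCurves
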