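import Pool.Agent.Lib.MP_464db4_gt.TI.Fin

/-!
MP_464db4_gt: constant scalar curvature Kaehler metrics on holomorphic families of complex tori over compact quotients of products of upper half planes.
The definitions are in `Pool/Agent/Lib/MP_464db4_gt/YT/Defs.lean`, `Pool/Agent/Lib/MP_464db4_gt/TR/Defs.lean`, `Pool/Agent/Lib/MP_464db4_gt/TH/Defs.lean` and
`Pool/Agent/Lib/MP_464db4_gt/TI/Den.lean` (`DensePairs`).
-/

namespace Pool.Agent.Results.MP_464db4_gt.TorusFamiliesOverPolydisks

open YT TRed

/-- Let a group `G` act properly and cocompactly on a product `Hr ι` of upper half planes through homomorphisms `pr i : G → SL(2,ℝ)`, `i ∈ ι`, by Moebius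
transformations of the coordinates, and let `X` be the total space of a holomorphic family of complex tori (or of finite quotients of tori) over the quotient `B`, given by
`T`.

(A) Let `g` be a Kaehler form on `X` and `gm` a Kaehler form in its class which is invariant under all translations `(b,z) ↦ (b, z + per b v)`, `v ∈ ℂ^κ` (such forms
exist).  If the Kaehler form `sch gm` which `gm` induces on `B` is cohomologous to `i ∑ c_i dz_i ∧ dz̄_i / y_i²` with `c_i > 0`, then the class of `g` contains a Kaehler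
form of constant scalar curvature `-r < 0` which is invariant under all these translations.

(B) If for `i ≠ j` the closure of `{(pr i γ, pr j γ) | γ ∈ G}` contains `SL(2,ℝ) × 1` or `1 × SL(2,ℝ)` (no condition if there is one factor), or if all Kaehler classes of
`B` contain such sums, then every Kaehler class of `X` contains a Kaehler form of constant scalar curvature `-r < 0` which is invariant under all these translations. -/
theorem result (ι κ G : Type) [Fintype ι] [DecidableEq ι] [Nonempty ι] [Fintype κ] [DecidableEq κ] [Group G]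
    (pr : ι → G →* Matrix.SpecialLinearGroup (Fin 2) ℝ) (hB : CompactBase (Hr ι) (mobr pr)) (T : TorusFamily κ (Hr ι) (mobr pr)) :
    (∀ g gm : (ι ⊕ κ → ℂ) → Matrix (ι ⊕ κ) (ι ⊕ κ) ℂ, IsKahler (tot κ (Hr ι)) T.total g → IsKahler (tot κ (Hr ι)) T.total gm → FibreFlat T gm →
      Cohomologous (tot κ (Hr ι)) T.total g gm →
      ∀ c : ι → ℝ, (∀ i, 0 < c i) → Cohomologous (Hr ι) (Set.range (mobr pr)) (sch gm) (poin c) →
      ∃ g', IsKahler (tot κ (Hr ι)) T.total g' ∧ FibreFlat T g' ∧ Cohomologous (tot κ (Hr ι)) T.total g g' ∧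
        ∃ r : ℝ, 0 < r ∧ ∀ x ∈ tot κ (Hr ι), scal g' x = ((-r : ℝ) : ℂ)) ∧
    ((DensePairs pr ∨ ∀ β, IsKahler (Hr ι) (Set.range (mobr pr)) β →
        ∃ c : ι → ℝ, (∀ i, 0 < c i) ∧ Cohomologous (Hr ι) (Set.range (mobr pr)) β (poin c)) →
      ∀ g, IsKahler (tot κ (Hr ι)) T.total g →
      ∃ g', IsKahler (tot κ (Hr ι)) T.total g' ∧ FibreFlat T g' ∧ Cohomologous (tot κ (Hr ι)) T.total g g' ∧
        ∃ r : ℝ, 0 < r ∧ ∀ x ∈ tot κ (Hr ι), scal g' x = ((-r : ℝ) : ℂ)) := by
  refine ⟨fun g gm _ hgm hf hcoh c hc hc' => ?_, fun hall g hg => ?_⟩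
  · obtain ⟨g', h1, h2, h3, r, h4, h5⟩ := asm_main hB hgm hf hcoh hc hc'
    exact ⟨g', h1, h2, h3, r, h4 inferInstance, h5⟩
  · rcases hall with hD | hall
    · exact every_class_strong hB T (fun _ hβ => poin_class hB hD hβ) hg
    · exact every_class_strong hB T hall hg

end Pool.Agent.Results.MP_464db4_gt.TorusFamiliesOverPolydisks
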