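import Pool.Agent.Lib.MP_464db4_gt.TR.Res

/-!
MP_464db4_gt: constant scalar curvature Kaehler metrics on holomorphic families of complex tori over compact quotients of domains of `ℂ^n`.
The definitions are in `Pool/Agent/Lib/MP_464db4_gt/YT/Defs.lean`, `Pool/Agent/Lib/MP_464db4_gt/TR/Defs.lean` and `Pool/Agent/Lib/MP_464db4_gt/TR/DefsW.lean`.
-/

namespace Pool.Agent.Results.MP_464db4_gt.TorusFamilyReduction

open YT TRed
open scoped ComplexOrder

/-- Let `D` be a connected open subset of `ℂ^ι`, `G` a group acting on `D` by the holomorphic maps `f γ`, properly and cocompactly, and let `X → D/G` be the holomorphic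
family of complex tori (or of finite quotients of complex tori) given by `T`: `X` is the quotient of `D × ℂ^κ` by the translations `(b,z) ↦ (b, z + per b v)`, `v` in a full
lattice, and the maps `(b,z) ↦ (f_γ b, A_γ(b) z + σ_γ(b))`.  Let `g` be a Kaehler form on `X`.  The class of `g` contains Kaehler forms which are invariant under all
translations `(b,z) ↦ (b, z + per b w)`, `w ∈ ℂ^κ`; for every such form `gm`, the form `sch gm` which it induces on `D/G` is a Kaehler form, whose class depends only on the class of `g`, as does the block `hv gm` of the fibre directions, and for every `c`: the class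
of `sch gm` contains a Kaehler form `β'` with `scal β' - tr_β' w = c`, where `w = -i ∂∂̄ log |det [[Z₁, Z₂], [conj Z₁, conj Z₂]]|`, a semipositive form, if and only if the class of `g` contains
a Kaehler form of constant scalar curvature `c` which is invariant under all translations `(b,z) ↦ (b, z + per b w)`. -/
theorem result (ι κ G : Type) [Fintype ι] [DecidableEq ι] [Fintype κ] [DecidableEq κ] [Group G] (D : Set (ι → ℂ))
    (f : G → (ι → ℂ) → (ι → ℂ)) (hB : CompactBase D f) (T : TorusFamily κ D f)
    (g : (ι ⊕ κ → ℂ) → Matrix (ι ⊕ κ) (ι ⊕ κ) ℂ) (hg : IsKahler (tot κ D) T.total g) :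
    (∃ gm, IsKahler (tot κ D) T.total gm ∧ FibreFlat T gm ∧ Cohomologous (tot κ D) T.total g gm) ∧
    (∀ b ∈ D, (wpf T b).PosSemidef) ∧
    ∀ gm, IsKahler (tot κ D) T.total gm → FibreFlat T gm → Cohomologous (tot κ D) T.total g gm →
      IsKahler D (Set.range f) (sch gm) ∧
      (∀ gm', IsKahler (tot κ D) T.total gm' → FibreFlat T gm' → Cohomologous (tot κ D) T.total g gm' →
        Cohomologous D (Set.range f) (sch gm) (sch gm') ∧ ∀ b ∈ D, hv gm' b = hv gm b) ∧
      ∀ c : ℝ,
        (∃ β', IsKahler D (Set.range f) β' ∧ Cohomologous D (Set.range f) (sch gm) β' ∧ ∀ b ∈ D, twsc T β' b = c) ↔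
        (∃ g', IsKahler (tot κ D) T.total g' ∧ FibreFlat T g' ∧ Cohomologous (tot κ D) T.total g g' ∧
          ∀ x ∈ tot κ D, scal g' x = c) :=
  ⟨exists_flat hB T hg, wpf_posSemidef hB T hg, fun _ hgm hf hcoh => ⟨sch_isKahler hB hgm hf, fun _ hgm' hf' hcoh' => sch_coh_of hB hgm hgm' hf hf' hcoh hcoh',
    fun c => flat_iff_twsc hB hgm hf hcoh c⟩⟩

end Pool.Agent.Results.MP_464db4_gt.TorusFamilyReduction
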